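import Pool.Agent.H76.PS.Defs2

/-!
# Job C2: the characters of order two of the open subgroups of the absolute Galois group of `ℚ_2`
-/

set_option autoImplicit false

namespace Pool.Agent.K7.H81.PS

open Pool.Agent.H76.PS
open Pool.Agent.Y715.Nr

/-- the Galois group of the fixed field of an open subgroup -/
theorem mem_of_fix {W : Subgroup (Au 2)} (hW : IsOpen (W : Set (Au 2))) {g : Au 2}
    (h : ∀ x : PadicAlgCl 2, (∀ w ∈ W, w x = x) → g x = x) : g ∈ W := by
  have hc : IsClosed (W : Set (Au 2)) := Subgroup.isClosed_of_isOpen W hW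
  have h1 : (IntermediateField.fixedField W).fixingSubgroup = W :=
    InfiniteGalois.fixingSubgroup_fixedField (k := ℚ_[2]) (K := PadicAlgCl 2) ⟨W, hc⟩
  rw [← h1, IntermediateField.mem_fixingSubgroup_iff]
  intro x hx
  rw [IntermediateField.mem_fixedField_iff] at hx
  exact h x hx

theorem exists_root {V : Subgroup (Au 2)} (hV : IsOpen (V : Set (Au 2))) {φ : V → ZMod 2}
    (hφ : φ ∈ HS V) :
    ∃ y : PadicAlgCl 2, y ≠ 0 ∧ (∀ g ∈ V, g (y ^ 2) = y ^ 2) ∧
      ∀ g : V, φ g = 0 ↔ (g : Au 2) y = y := by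
  obtain ⟨hlc, hadd⟩ := hφ
  by_cases h0 : ∀ g, φ g = 0
  · exact ⟨1, one_ne_zero, fun g _ => by simp, fun g => by simp [h0 g]⟩
  push Not at h0
  obtain ⟨t, ht⟩ := h0
  have h1 : φ 1 = 0 := by
    have := hadd 1 1
    rw [mul_one] at this
    simpa using this
  have hinv : ∀ g, φ g⁻¹ = φ g := by
    intro g
    have := hadd g⁻¹ g
    rw [inv_mul_cancel, h1] at this
    have h2 : ∀ a b : ZMod 2, 0 = a + b → a = b := by decide
    exact h2 _ _ this
  let W : Subgroup (Au 2) :=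
    { carrier := {g | ∃ h : g ∈ V, φ ⟨g, h⟩ = 0}
      mul_mem' := by
        rintro a b ⟨ha, ha'⟩ ⟨hb, hb'⟩
        refine ⟨V.mul_mem ha hb, ?_⟩
        have := hadd ⟨a, ha⟩ ⟨b, hb⟩
        rw [ha', hb', add_zero] at this
        exact this
      one_mem' := ⟨V.one_mem, h1⟩
      inv_mem' := by
        rintro a ⟨ha, ha'⟩
        refine ⟨V.inv_mem ha, ?_⟩
        have := hinv ⟨a, ha⟩
        rw [ha'] at this
        exact this }
  have hWm : ∀ g : V, (g : Au 2) ∈ W ↔ φ g = 0 := fun g => ⟨fun ⟨_, h⟩ => h, fun h => ⟨g.2, h⟩⟩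
  have hWo : IsOpen (W : Set (Au 2)) := by
    have h3 : (W : Set (Au 2)) = (Subtype.val : V → Au 2) '' {g | φ g = 0} := by
      ext g
      constructor
      · rintro ⟨h, h'⟩
        exact ⟨⟨g, h⟩, h', rfl⟩
      · rintro ⟨g', h, rfl⟩
        exact (hWm g').2 h
    rw [h3]
    exact hV.isOpenEmbedding_subtypeVal.isOpenMap _ (hlc.isOpen_fiber 0)
  have hx : ∃ x : PadicAlgCl 2, (∀ w ∈ W, w x = x) ∧ (t : Au 2) x ≠ x := by
    by_contra hcon
    push Not at hcon
    exact ht ((hWm t).1 (mem_of_fix hWo hcon))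
  obtain ⟨x, hxW, hxt⟩ := hx
  have h11 : ∀ a : ZMod 2, a ≠ 0 → a = 1 := by decide
  have htt : (t : Au 2) ((t : Au 2) x) = x := by
    have : ((t * t : V) : Au 2) ∈ W := by
      rw [hWm, hadd, h11 _ ht]; decide
    exact hxW _ this
  set y := x - (t : Au 2) x with hy
  have hy0 : y ≠ 0 := sub_ne_zero.2 (Ne.symm hxt)
  have hty : (t : Au 2) y = -y := by
    rw [hy, map_sub, htt]; ring
  have hWy : ∀ w ∈ W, w y = y := by
    intro w hw
    obtain ⟨hwV, hw0⟩ := hw
    have h4 : ((t⁻¹ * ⟨w, hwV⟩ * t : V) : Au 2) ∈ W := by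
      rw [hWm, hadd, hadd, hw0, hinv, h11 _ ht]; decide
    have h5 := hxW _ h4
    have h6 : w ((t : Au 2) x) = (t : Au 2) x := by
      have h7 : (((t⁻¹ * ⟨w, hwV⟩ * t : V) : Au 2)) = (t : Au 2)⁻¹ * w * (t : Au 2) := rfl
      rw [h7, mul_assoc, AlgEquiv.mul_apply, AlgEquiv.mul_apply] at h5
      have h8 := congrArg (t : Au 2) h5
      rw [← AlgEquiv.mul_apply, mul_inv_cancel, AlgEquiv.one_apply] at h8
      exact h8
    rw [hy, map_sub, h6, hxW w ⟨hwV, hw0⟩]
  have hcase : ∀ g : V, φ g ≠ 0 → (g : Au 2) y = -y := by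
    intro g hg
    have h4 : ((t⁻¹ * g : V) : Au 2) ∈ W := by
      rw [hWm, hadd, hinv, h11 _ ht, h11 _ hg]; decide
    have h5 := hWy _ h4
    have h7 : (((t⁻¹ * g : V) : Au 2)) = (t : Au 2)⁻¹ * (g : Au 2) := rfl
    rw [h7, AlgEquiv.mul_apply] at h5
    have h8 := congrArg (t : Au 2) h5
    rw [← AlgEquiv.mul_apply, mul_inv_cancel, AlgEquiv.one_apply, hty] at h8
    exact h8
  refine ⟨y, hy0, fun g hg => ?_, fun g => ⟨fun h => hWy _ ((hWm g).2 h), fun h => ?_⟩⟩
  · rw [map_pow]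
    by_cases h : φ ⟨g, hg⟩ = 0
    · rw [hWy g ⟨hg, h⟩]
    · rw [hcase ⟨g, hg⟩ h, neg_sq]
  · by_contra hne
    have h9 := hcase g hne
    rw [h] at h9
    have h10 : (2 : PadicAlgCl 2) * y = 0 := by linear_combination h9
    rcases mul_eq_zero.1 h10 with h | h
    · exact two_ne_zero h
    · exact hy0 h

/-- **Job C2.** -/
theorem stC2 : StC2 := by
  intro hC1 V hV
  have hc : IsClosed (V : Set (Au 2)) := Subgroup.isClosed_of_isOpen V hV
  have hfix : (IntermediateField.fixedField V).fixingSubgroup = V :=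
    InfiniteGalois.fixingSubgroup_fixedField (k := ℚ_[2]) (K := PadicAlgCl 2) ⟨V, hc⟩
  have hfd : FiniteDimensional ℚ_[2] (IntermediateField.fixedField V) := by
    refine (InfiniteGalois.isOpen_iff_finite _).1 ?_
    rw [hfix]
    exact hV
  have hrank : Module.finrank ℚ_[2] (IntermediateField.fixedField V) = V.index := by
    rw [IntermediateField.finrank_eq_fixingSubgroup_index, hfix]
  obtain ⟨R, hRc, hR⟩ := hC1 _ hfd
  rw [hrank] at hRc
  have key : ∀ φ : HS V, ∃ r : R, ∃ y : PadicAlgCl 2, y ^ 2 = r.1 ∧ y ≠ 0 ∧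
      ∀ g : V, φ.1 g = 0 ↔ (g : Au 2) y = y := by
    intro φ
    obtain ⟨y, hy0, hy2, hyg⟩ := exists_root hV φ.2
    have hyL : y ^ 2 ∈ IntermediateField.fixedField V := by
      rw [IntermediateField.mem_fixedField_iff]
      exact hy2
    obtain ⟨r, hr, z, hz, hrL, hr0, hrz⟩ := hR (y ^ 2) hyL (pow_ne_zero 2 hy0)
    have hz0 : z ≠ 0 := by
      rintro rfl
      rw [zero_pow two_ne_zero, mul_zero] at hrz
      exact pow_ne_zero 2 hy0 hrz
    rw [IntermediateField.mem_fixedField_iff] at hz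
    refine ⟨⟨r, hr⟩, y / z, ?_, div_ne_zero hy0 hz0, fun g => ?_⟩
    · rw [div_pow, hrz]
      field_simp
    · rw [hyg g, map_div₀, hz _ g.2, div_left_inj' hz0]
  choose f y hy hy0 hg using key
  have hinj : Function.Injective f := by
    intro φ ψ h
    have h1 : y φ ^ 2 = y ψ ^ 2 := by rw [hy, hy, h]
    have h2 : ∀ g : V, φ.1 g = 0 ↔ ψ.1 g = 0 := by
      intro g
      rw [hg φ g, hg ψ g]
      rcases sq_eq_sq_iff_eq_or_eq_neg.1 h1 with h | h
      · rw [h]
      · rw [h, map_neg, neg_inj]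
    have h3 : ∀ a b : ZMod 2, (a = 0 ↔ b = 0) → a = b := by decide
    exact Subtype.ext (funext fun g => h3 _ _ (h2 g))
  have hfin : Finite (HS V) := Finite.of_injective f hinj
  have hcard : Nat.card (HS V) ≤ 2 ^ (V.index + 2) := by
    refine (Nat.card_le_card_of_injective f hinj).trans ?_
    simpa using hRc
  refine ⟨Module.Finite.of_finite, ?_⟩
  rw [Module.natCard_eq_pow_finrank (K := ZMod 2), Nat.card_zmod] at hcard
  exact (Nat.pow_le_pow_iff_right (by norm_num)).1 hcard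

end Pool.Agent.K7.H81.PS
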